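import Pool.Agent.H20.PT.Lin

/-!
# Project PT: `S_ANG` from `S_HYP1`
-/

set_option autoImplicit false

open Filter Set Metric Topology Module

namespace Pool.Agent.H58.PT

open Pool.Agent.H20.PT

section lin

set_option linter.unusedSectionVars false

variable {E : Type} [NormedAddCommGroup E] [NormedSpace ℝ E]

theorem mem_Es {M : E ≃L[ℝ] E} {v : E} :
    v ∈ Es M ↔ Tendsto (fun p : ℕ => (M ^ p) v) atTop (𝓝 0) := Iff.rfl

theorem mem_Eu {M : E ≃L[ℝ] E} {v : E} :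
    v ∈ Eu M ↔ Tendsto (fun p : ℕ => (M⁻¹ ^ p) v) atTop (𝓝 0) := Iff.rfl

theorem pow_loop {η θ : ℝ} {𝓖 : ℕ → (E ≃L[ℝ] E) → Prop} (h : LoopFam η θ 𝓖) {n : ℕ}
    {M : E ≃L[ℝ] E} (hM : 𝓖 n M) (p : ℕ) : 𝓖 ((p + 1) * n) (M ^ (p + 1)) := by
  induction p with
  | zero => simpa using hM
  | succ p ih =>
    have := h.mul _ _ _ _ hM ih
    rw [pow_succ M (p + 1), show (p + 1 + 1) * n = n + (p + 1) * n by ring]
    exact this

theorem pow_loop' {η θ : ℝ} {𝓖 : ℕ → (E ≃L[ℝ] E) → Prop} (h : LoopFam η θ 𝓖) {n : ℕ}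
    {M : E ≃L[ℝ] E} (hM : 𝓖 n M) {p : ℕ} (hp : 1 ≤ p) : 𝓖 (p * n) (M ^ p) := by
  obtain ⟨q, rfl⟩ : ∃ q, p = q + 1 := ⟨p - 1, by omega⟩
  exact pow_loop h hM q

theorem Es_le_pow (M : E ≃L[ℝ] E) {p : ℕ} (hp : 1 ≤ p) : Es M ≤ Es (M ^ p) := by
  intro v hv
  rw [mem_Es] at hv ⊢
  have h1 : Tendsto (fun k : ℕ => p * k) atTop atTop := tendsto_id.const_mul_atTop' (by omega)
  have := hv.comp h1
  refine this.congr fun k => ?_
  simp [Function.comp, pow_mul]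

theorem map_Es_le (X Y : E ≃L[ℝ] E) :
    (Es (X * Y)).map (Y.toLinearEquiv : E →ₗ[ℝ] E) ≤ Es (Y * X) := by
  rintro _ ⟨v, hv, rfl⟩
  have hv' := mem_Es.1 hv
  have h1 : Tendsto (fun p : ℕ => Y (((X * Y) ^ p) v)) atTop (𝓝 (Y 0)) :=
    (Y.continuous.tendsto 0).comp hv'
  rw [map_zero] at h1
  refine mem_Es.2 (h1.congr fun p => ?_)
  have h2 := congrArg (fun W : E ≃L[ℝ] E => W v) (mul_pow_mul Y X p)
  exact h2.symm

variable [FiniteDimensional ℝ E]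

theorem finrank_comm (X Y : E ≃L[ℝ] E) : finrank ℝ (Es (X * Y)) = finrank ℝ (Es (Y * X)) := by
  apply le_antisymm
  · rw [← LinearEquiv.finrank_map_eq Y.toLinearEquiv (Es (X * Y))]
    exact Submodule.finrank_mono (map_Es_le X Y)
  · rw [← LinearEquiv.finrank_map_eq X.toLinearEquiv (Es (Y * X))]
    exact Submodule.finrank_mono (map_Es_le Y X)

theorem apply_mem_Eu {N : E ≃L[ℝ] E} {u : E} (hu : u ∈ Eu N) : N u ∈ Eu N := by
  have hv' := mem_Eu.1 hu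
  have h1 : Tendsto (fun p : ℕ => N ((N⁻¹ ^ p) u)) atTop (𝓝 (N 0)) :=
    (N.continuous.tendsto 0).comp hv'
  rw [map_zero] at h1
  refine mem_Eu.2 (h1.congr fun p => ?_)
  have h3 : Commute N (N⁻¹ ^ p) := ((Commute.refl N).inv_right).pow_right p
  exact congrArg (fun W : E ≃L[ℝ] E => W u) h3.eq

/-- The output of `S_HYP1` for a fixed `E`, `η`, `K`. -/
def Hyp (E : Type) [NormedAddCommGroup E] [NormedSpace ℝ E] (η K : ℝ) : Prop :=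
  ∀ (θ : ℝ) (M : E ≃L[ℝ] E), 1 < θ → Good η θ M →
      IsCompl (Es M) (Eu M) ∧
      (∀ s ∈ Es M, ∀ u ∈ Eu M, ‖s‖ ≤ K * ‖s + u‖ ∧ ‖u‖ ≤ K * ‖s + u‖) ∧
      (∀ p : ℕ, 1 ≤ p → ∀ s ∈ Es M, ‖(M ^ p) s‖ ≤ K * θ⁻¹ ^ p * ‖s‖) ∧
      (∀ p : ℕ, 1 ≤ p → ∀ u ∈ Eu M, ‖(M⁻¹ ^ p) u‖ ≤ K * θ⁻¹ ^ p * ‖u‖)

variable {η θ K : ℝ} {𝓖 : ℕ → (E ≃L[ℝ] E) → Prop}

theorem compl_of (hK : Hyp E η K) (hθ : 1 < θ) (h : LoopFam η θ 𝓖) {n : ℕ} {N : E ≃L[ℝ] E}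
    (hN : 𝓖 n N) (hn : 1 ≤ n) : IsCompl (Es N) (Eu N) :=
  (hK (θ ^ n) N (one_lt_pow₀ hθ (by omega)) (h.good _ _ hN hn)).1

theorem rate_s (hK : Hyp E η K) (hθ : 1 < θ) (h : LoopFam η θ 𝓖) {n : ℕ} {N : E ≃L[ℝ] E}
    (hN : 𝓖 n N) (hn : 1 ≤ n) {s : E} (hs : s ∈ Es N) : ‖N s‖ ≤ K * (θ ^ n)⁻¹ * ‖s‖ := by
  have := (hK (θ ^ n) N (one_lt_pow₀ hθ (by omega)) (h.good _ _ hN hn)).2.2.1 1 le_rfl s hs
  simpa using this

theorem rate_u (hK : Hyp E η K) (hθ : 1 < θ) (h : LoopFam η θ 𝓖) {n : ℕ} {N : E ≃L[ℝ] E}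
    (hN : 𝓖 n N) (hn : 1 ≤ n) {u : E} (hu : u ∈ Eu N) : ‖u‖ ≤ K * (θ ^ n)⁻¹ * ‖N u‖ := by
  have := (hK (θ ^ n) N (one_lt_pow₀ hθ (by omega)) (h.good _ _ hN hn)).2.2.2 1 le_rfl (N u)
    (apply_mem_Eu hu)
  rw [pow_one, pow_one] at this
  have h2 : N⁻¹ (N u) = u := N.symm_apply_apply u
  rwa [h2] at this

theorem finrank_Es_pow (hK : Hyp E η K) (hθ : 1 < θ) (h : LoopFam η θ 𝓖) {n : ℕ}
    {N : E ≃L[ℝ] E} (hN : 𝓖 n N) (hn : 1 ≤ n) {p : ℕ} (hp : 1 ≤ p) :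
    finrank ℝ (Es (N ^ p)) = finrank ℝ (Es N) := by
  have h1 := Submodule.finrank_add_eq_of_isCompl (compl_of hK hθ h hN hn)
  have h2 := Submodule.finrank_add_eq_of_isCompl
    (compl_of hK hθ h (pow_loop' h hN hp) (Nat.mul_pos hp hn))
  have h3 := Submodule.finrank_mono (Es_le_pow N hp)
  have h4 : Eu N ≤ Eu (N ^ p) := by
    have := Es_le_pow N⁻¹ hp
    rw [inv_pow] at this
    exact this
  have h5 := Submodule.finrank_mono h4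
  omega

theorem finrank_step (hK1 : 1 ≤ K) (hK : Hyp E η K) (hθ : 1 < θ) (h : LoopFam η θ 𝓖) {n m : ℕ}
    {N T : E ≃L[ℝ] E} (hN : 𝓖 n N) (hT : 𝓖 m T) (hn : 1 ≤ n) {C : ℝ} (hC0 : 0 ≤ C)
    (hC1 : ∀ v, ‖T v‖ ≤ C * ‖v‖) (hC2 : ∀ v, ‖T⁻¹ v‖ ≤ C * ‖v‖)
    (hb : K * K * C < θ ^ n * θ ^ n) : finrank ℝ (Es (T * N)) = finrank ℝ (Es N) := by
  have hTN := h.mul _ _ _ _ hN hT
  have hnm : 1 ≤ n + m := by omega
  have e1 := Submodule.finrank_add_eq_of_isCompl (compl_of hK hθ h hN hn)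
  have e2 := Submodule.finrank_add_eq_of_isCompl (compl_of hK hθ h hTN hnm)
  have hp : 0 < θ ^ n := by positivity
  have hpm : 1 ≤ θ ^ m := one_le_pow₀ hθ.le
  have hinv : (θ ^ (n + m))⁻¹ ≤ (θ ^ n)⁻¹ := by
    apply inv_anti₀ hp
    rw [pow_add]
    nlinarith
  have hK0 : 0 ≤ K := by linarith
  have key : ∀ v : E, ‖v‖ ≤ K * (θ ^ n)⁻¹ * (C * (K * (θ ^ n)⁻¹ * ‖v‖)) → v = 0 := by
    intro v hv
    by_contra hne
    have hvp : 0 < ‖v‖ := norm_pos_iff.2 hne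
    have h3 : K * (θ ^ n)⁻¹ * (C * (K * (θ ^ n)⁻¹ * ‖v‖)) =
        (K * K * C) * ((θ ^ n)⁻¹ * (θ ^ n)⁻¹) * ‖v‖ := by ring
    rw [h3] at hv
    have h4 : (K * K * C) * ((θ ^ n)⁻¹ * (θ ^ n)⁻¹) < 1 := by
      rw [← mul_inv, ← div_eq_mul_inv, div_lt_one (by positivity)]
      exact hb
    nlinarith
  have d1 : Disjoint (Es (T * N)) (Eu N) := by
    rw [Submodule.disjoint_def]
    intro v hv1 hv2
    apply key
    have a1 := rate_u hK hθ h hN hn hv2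
    have a2 := rate_s hK hθ h hTN hnm hv1
    have a3 : ‖N v‖ ≤ C * ‖(T * N) v‖ := by
      have := hC2 ((T * N) v)
      have e : T⁻¹ ((T * N) v) = N v := T.symm_apply_apply (N v)
      rwa [e] at this
    have a4 : ‖(T * N) v‖ ≤ K * (θ ^ n)⁻¹ * ‖v‖ := by
      refine a2.trans ?_
      gcongr
    calc ‖v‖ ≤ K * (θ ^ n)⁻¹ * ‖N v‖ := a1
      _ ≤ K * (θ ^ n)⁻¹ * (C * ‖(T * N) v‖) := by gcongr
      _ ≤ _ := by gcongr
  have d2 : Disjoint (Eu (T * N)) (Es N) := by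
    rw [Submodule.disjoint_def]
    intro v hv1 hv2
    apply key
    have a1 := rate_u hK hθ h hTN hnm hv1
    have a2 := rate_s hK hθ h hN hn hv2
    have a3 : ‖(T * N) v‖ ≤ C * ‖N v‖ := hC1 (N v)
    calc ‖v‖ ≤ K * (θ ^ (n + m))⁻¹ * ‖(T * N) v‖ := a1
      _ ≤ K * (θ ^ n)⁻¹ * ‖(T * N) v‖ := by gcongr
      _ ≤ K * (θ ^ n)⁻¹ * (C * ‖N v‖) := by gcongr
      _ ≤ _ := by gcongr
  have f1 := Submodule.finrank_add_finrank_le_of_disjoint d1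
  have f2 := Submodule.finrank_add_finrank_le_of_disjoint d2
  omega

theorem finrank_pow_mul (hK1 : 1 ≤ K) (hK : Hyp E η K) (hθ : 1 < θ) (h : LoopFam η θ 𝓖)
    {n m : ℕ} {N T : E ≃L[ℝ] E} (hN : 𝓖 n N) (hT : 𝓖 m T) (hn : 1 ≤ n) {C : ℝ} (hC0 : 0 ≤ C)
    (hC1 : ∀ v, ‖T v‖ ≤ C * ‖v‖) (hC2 : ∀ v, ‖T⁻¹ v‖ ≤ C * ‖v‖)
    (hb : K * K * C < θ ^ n * θ ^ n) (q : ℕ) :
    𝓖 (n + q * m) (T ^ q * N) ∧ finrank ℝ (Es (T ^ q * N)) = finrank ℝ (Es N) := by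
  induction q with
  | zero =>
    rw [pow_zero, one_mul, Nat.zero_mul, Nat.add_zero]
    exact ⟨hN, rfl⟩
  | succ q ih =>
    obtain ⟨i1, i2⟩ := ih
    have e : T ^ (q + 1) * N = T * (T ^ q * N) := by rw [pow_succ', mul_assoc]
    refine ⟨?_, ?_⟩
    · rw [e, show n + (q + 1) * m = (n + q * m) + m by ring]
      exact h.mul _ _ _ _ i1 hT
    · rw [e, finrank_step hK1 hK hθ h i1 hT (by omega) hC0 hC1 hC2 ?_, i2]
      refine hb.trans_le ?_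
      have h1 : θ ^ n ≤ θ ^ (n + q * m) := pow_le_pow_right₀ hθ.le (by omega)
      have h2 : 0 < θ ^ n := by positivity
      nlinarith

theorem exists_bound (T : E ≃L[ℝ] E) :
    ∃ C : ℝ, 0 ≤ C ∧ (∀ v, ‖T v‖ ≤ C * ‖v‖) ∧ (∀ v, ‖T⁻¹ v‖ ≤ C * ‖v‖) := by
  refine ⟨max ‖(T : E →L[ℝ] E)‖ ‖((T⁻¹ : E ≃L[ℝ] E) : E →L[ℝ] E)‖,
    (norm_nonneg _).trans (le_max_left _ _), fun v => ?_, fun v => ?_⟩
  · exact ((T : E →L[ℝ] E).le_opNorm v).trans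
      (mul_le_mul_of_nonneg_right (le_max_left _ _) (norm_nonneg _))
  · exact (((T⁻¹ : E ≃L[ℝ] E) : E →L[ℝ] E).le_opNorm v).trans
      (mul_le_mul_of_nonneg_right (le_max_right _ _) (norm_nonneg _))

theorem finrank_eq (hK1 : 1 ≤ K) (hK : Hyp E η K) (hθ : 1 < θ) (h : LoopFam η θ 𝓖)
    {n m : ℕ} {M M' : E ≃L[ℝ] E} (hM : 𝓖 n M) (hM' : 𝓖 m M') (hn : 1 ≤ n) (hm : 1 ≤ m) :
    finrank ℝ (Es M) = finrank ℝ (Es M') := by
  obtain ⟨C, hC0, hC1, hC2⟩ := exists_bound M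
  obtain ⟨C', hC0', hC1', hC2'⟩ := exists_bound M'
  obtain ⟨a, ha⟩ := pow_unbounded_of_one_lt (K * K * (C + C')) hθ
  have hKK : 0 ≤ K * K := mul_self_nonneg K
  have hb : ∀ k : ℕ, 1 ≤ k → K * K * (C + C') < θ ^ ((a + 1) * k) * θ ^ ((a + 1) * k) := by
    intro k hk
    have h1 : θ ^ a ≤ θ ^ ((a + 1) * k) := pow_le_pow_right₀ hθ.le (by nlinarith)
    have h2 : 1 ≤ θ ^ ((a + 1) * k) := one_le_pow₀ hθ.le
    nlinarith
  have hbM : K * K * C' < θ ^ ((a + 1) * n) * θ ^ ((a + 1) * n) :=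
    lt_of_le_of_lt (by nlinarith) (hb n hn)
  have hbM' : K * K * C < θ ^ ((a + 1) * m) * θ ^ ((a + 1) * m) :=
    lt_of_le_of_lt (by nlinarith) (hb m hm)
  have hap : 1 ≤ a + 1 := by omega
  have s1 := (finrank_pow_mul hK1 hK hθ h (pow_loop' h hM hap) hM' (Nat.mul_pos hap hn) hC0' hC1'
    hC2' hbM (a + 1)).2
  have s2 := (finrank_pow_mul hK1 hK hθ h (pow_loop' h hM' hap) hM (Nat.mul_pos hap hm) hC0 hC1
    hC2 hbM' (a + 1)).2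
  rw [finrank_Es_pow hK hθ h hM hn hap] at s1
  rw [finrank_Es_pow hK hθ h hM' hm hap] at s2
  rw [← s1, ← s2, finrank_comm]

/-- For `u ≠ 0` the angle bound with `η` and an error. -/
theorem angle_b (hη : 0 < η) (hK1 : 1 ≤ K) (hK : Hyp E η K) (hθ : 1 < θ) (h : LoopFam η θ 𝓖)
    {n m : ℕ} {M M' : E ≃L[ℝ] E} (hM : 𝓖 n M) (hM' : 𝓖 m M') (hn : 1 ≤ n) (hm : 1 ≤ m)
    {s u : E} (hs : s ∈ Es M) (hu : u ∈ Eu M') (hu0 : u ≠ 0) (b : ℕ) (hb : 1 ≤ b) :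
    η * ‖s‖ ≤ ‖s - u‖ + η⁻¹ * (K * (θ ^ m)⁻¹ ^ b * ‖u‖) * (K * (θ ^ m)⁻¹ ^ b * K) := by
  have hK0 : 0 ≤ K := by linarith
  have hθm : 1 < θ ^ m := one_lt_pow₀ hθ (by omega)
  obtain ⟨c1, c2, c3, c4⟩ := hK (θ ^ m) M' hθm (h.good _ _ hM' hm)
  set ub : E := (M'⁻¹ ^ b) u with hub
  have hub0 : ub ≠ 0 := by
    intro h0
    exact hu0 ((M'⁻¹ ^ b).injective (by rw [← hub, h0, map_zero]))
  have hubn : 0 < ‖ub‖ := norm_pos_iff.2 hub0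
  have hubu : ub ∈ Eu M' := by
    have : ∀ k : ℕ, (M'⁻¹ ^ k) u ∈ Eu M' := by
      intro k
      have hv' := mem_Eu.1 hu
      refine mem_Eu.2 ?_
      have h1 : Tendsto (fun p : ℕ => p + k) atTop atTop := tendsto_add_atTop_nat k
      refine (hv'.comp h1).congr fun p => ?_
      have : M'⁻¹ ^ (p + k) = M'⁻¹ ^ p * M'⁻¹ ^ k := pow_add _ _ _
      simp only [Function.comp, this]
      rfl
    exact this b
  have hubb : ‖ub‖ ≤ K * (θ ^ m)⁻¹ ^ b * ‖u‖ := c4 b hb u hu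
  set uh : E := ‖ub‖⁻¹ • ub with huh
  have huhn : ‖uh‖ = 1 := by
    rw [huh, norm_smul, norm_inv, norm_norm, inv_mul_cancel₀ hubn.ne']
  have huhu : uh ∈ Eu M' := Submodule.smul_mem _ _ hubu
  have hMuh : (M' ^ b) uh = ‖ub‖⁻¹ • u := by
    rw [huh, map_smul, hub]
    congr 1
    have : (M' ^ b) * (M'⁻¹ ^ b) = 1 := by rw [inv_pow, mul_inv_cancel]
    exact congrArg (fun W : E ≃L[ℝ] E => W u) this
  -- the vector `e`
  have hcM := compl_of hK hθ h hM hn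
  have hdim : finrank ℝ E < finrank ℝ (Eu M) + finrank ℝ ((ℝ ∙ uh) ⊔ Es M' : Submodule ℝ E) := by
    have e1 := Submodule.finrank_add_eq_of_isCompl hcM
    have e2 := finrank_eq hK1 hK hθ h hM hM' hn hm
    have e3 := Submodule.finrank_sup_add_finrank_inf_eq (ℝ ∙ uh) (Es M')
    have e4 : (ℝ ∙ uh) ⊓ Es M' = ⊥ := by
      rw [eq_bot_iff]
      intro v hv
      have h1 : v ∈ Eu M' := (Submodule.span_singleton_le_iff_mem _ _).2 huhu hv.1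
      exact (Submodule.disjoint_def.1 c1.disjoint v hv.2 h1)
    have huh0 : uh ≠ 0 := by
      intro h0; rw [h0, norm_zero] at huhn; exact zero_ne_one huhn
    rw [e4, finrank_bot, finrank_span_singleton huh0] at e3
    omega
  obtain ⟨e0, he0, he0u, he0s⟩ : ∃ e0 : E, e0 ≠ 0 ∧ e0 ∈ Eu M ∧
      e0 ∈ ((ℝ ∙ uh) ⊔ Es M' : Submodule ℝ E) := by
    by_contra hcon
    push Not at hcon
    have hd : Disjoint (Eu M) ((ℝ ∙ uh) ⊔ Es M' : Submodule ℝ E) := by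
      rw [Submodule.disjoint_def]
      intro v hv1 hv2
      by_contra hv
      exact hcon v hv hv1 hv2
    have := Submodule.finrank_add_finrank_le_of_disjoint hd
    omega
  set e : E := ‖e0‖⁻¹ • e0 with he
  have he0n : 0 < ‖e0‖ := norm_pos_iff.2 he0
  have hen : ‖e‖ = 1 := by
    rw [he, norm_smul, norm_inv, norm_norm, inv_mul_cancel₀ he0n.ne']
  have heu : e ∈ Eu M := Submodule.smul_mem _ _ he0u
  have hes : e ∈ ((ℝ ∙ uh) ⊔ Es M' : Submodule ℝ E) := Submodule.smul_mem _ _ he0s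
  obtain ⟨y, hy, σ, hσ, hyσ⟩ := Submodule.mem_sup.1 hes
  obtain ⟨α, rfl⟩ := Submodule.mem_span_singleton.1 hy
  have hσn : ‖σ‖ ≤ K := by
    have := (c2 σ hσ (α • uh) (Submodule.smul_mem _ _ huhu)).1
    rw [add_comm σ, hyσ, hen, mul_one] at this
    exact this
  -- the perturbation
  obtain ⟨β, hβ, hαβ⟩ : ∃ β : ℝ, |β| = η ∧ η ≤ |α + β| := by
    rcases le_total 0 α with h0 | h0
    · exact ⟨η, abs_of_pos hη, by rw [abs_of_nonneg (by linarith)]; linarith⟩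
    · exact ⟨-η, by rw [abs_neg, abs_of_pos hη], by
        rw [abs_of_nonpos (by linarith)]; linarith⟩
  obtain ⟨g, hgn, hge⟩ := exists_dual_vector ℝ e (by
    intro h0; rw [h0] at hen; simp at hen)
  have hge' : g e = 1 := by rw [hge, hen]; norm_num
  set B : E →L[ℝ] E := β • g.smulRight uh with hB
  have hBn : ‖B‖ ≤ η := by
    rw [hB, norm_smul, ContinuousLinearMap.norm_smulRight_apply, hgn, huhn, Real.norm_eq_abs, hβ]
    simp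
  have hBe : B e = β • uh := by
    rw [hB]
    simp [hge']
  have hsum : e + B e = (α + β) • uh + σ := by
    rw [hBe, ← hyσ, add_smul]
    abel
  have hαβ0 : α + β ≠ 0 := by
    intro h0; rw [h0, abs_zero] at hαβ; linarith
  set κ : ℝ := (α + β)⁻¹ * ‖ub‖ with hκ
  have hMB : (M' ^ b) (κ • e + B (κ • e)) = u + κ • (M' ^ b) σ := by
    rw [map_smul B, ← smul_add, hsum, map_smul, map_add, map_smul, hMuh, smul_add, smul_smul,
      smul_smul]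
    congr 1
    rw [hκ]
    have : (α + β)⁻¹ * ‖ub‖ * (α + β) * ‖ub‖⁻¹ = 1 := by
      field_simp
    rw [this, one_smul]
  -- the limit `a → ∞`
  have hlim : η * ‖s‖ ≤ ‖s - (u + κ • (M' ^ b) σ)‖ := by
    have t1 : Tendsto (fun a : ℕ => s + κ • (M⁻¹ ^ a) e) atTop (𝓝 (s + κ • 0)) :=
      (tendsto_const_nhds).add ((mem_Eu.1 heu).const_smul κ)
    rw [smul_zero, add_zero] at t1
    have t2 : Tendsto (fun a : ℕ => (M ^ a) s + κ • e) atTop (𝓝 (0 + κ • e)) :=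
      (mem_Es.1 hs).add tendsto_const_nhds
    rw [zero_add] at t2
    have hcont : Continuous fun v : E => (M' ^ b) (v + B v) :=
      (M' ^ b).continuous.comp (continuous_id.add B.continuous)
    have t3 := (hcont.tendsto (κ • e)).comp t2
    rw [hMB] at t3
    have t4 := (t1.sub t3).norm
    have t5 := t1.norm.const_mul η
    refine le_of_tendsto_of_tendsto t5 t4 ?_
    filter_upwards [eventually_ge_atTop 1] with a ha
    have hk := h.kick _ _ _ _ (pow_loop' h hM ha) (pow_loop' h hM' hb) (Nat.mul_pos ha hn)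
      (Nat.mul_pos hb hm) B hBn (s + κ • (M⁻¹ ^ a) e)
    have e5 : (M ^ a) (s + κ • (M⁻¹ ^ a) e) = (M ^ a) s + κ • e := by
      rw [map_add, map_smul]
      congr 2
      have : (M ^ a) * (M⁻¹ ^ a) = 1 := by rw [inv_pow, mul_inv_cancel]
      exact congrArg (fun W : E ≃L[ℝ] E => W e) this
    rw [e5] at hk
    exact hk
  refine hlim.trans ?_
  have e6 : s - (u + κ • (M' ^ b) σ) = (s - u) - κ • (M' ^ b) σ := by abel
  rw [e6]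
  refine (norm_sub_le _ _).trans (add_le_add le_rfl ?_)
  have e7 : ‖(M' ^ b) σ‖ ≤ K * (θ ^ m)⁻¹ ^ b * K := by
    refine (c3 b hb σ hσ).trans ?_
    gcongr
  have e8 : |κ| ≤ η⁻¹ * (K * (θ ^ m)⁻¹ ^ b * ‖u‖) := by
    rw [hκ, abs_mul, abs_inv, abs_norm]
    gcongr
  rw [norm_smul, Real.norm_eq_abs]
  gcongr

end lin

/-- `S_ANG` from `S_HYP1`. -/
theorem ang (hH : S_HYP1) : S_ANG := by
  intro E _ _ _ η θ hη hη1 hθ 𝓖 h n M m M' hM hM' hn hm s hs u hu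
  obtain ⟨K, hK1, hK⟩ := hH E η hη
  have hK' : Hyp E η K := hK
  by_cases hu0 : u = 0
  · subst hu0
    rw [sub_zero]
    nlinarith [norm_nonneg s]
  have hb := fun b hb => angle_b hη hK1 hK' hθ h hM hM' hn hm hs hu hu0 b hb
  have hθm : 1 < θ ^ m := one_lt_pow₀ hθ (by omega)
  have t0 : Tendsto (fun b : ℕ => (θ ^ m)⁻¹ ^ b) atTop (𝓝 0) :=
    tendsto_pow_atTop_nhds_zero_of_lt_one (by positivity) (inv_lt_one_of_one_lt₀ hθm)
  have t1 : Tendsto (fun b : ℕ => ‖s - u‖ +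
      η⁻¹ * (K * (θ ^ m)⁻¹ ^ b * ‖u‖) * (K * (θ ^ m)⁻¹ ^ b * K)) atTop
      (𝓝 (‖s - u‖ + η⁻¹ * (K * 0 * ‖u‖) * (K * 0 * K))) :=
    tendsto_const_nhds.add ((((t0.const_mul K).mul_const _).const_mul _).mul
      ((t0.const_mul K).mul_const _))
  have h2 : η * ‖s‖ ≤ ‖s - u‖ + η⁻¹ * (K * 0 * ‖u‖) * (K * 0 * K) :=
    ge_of_tendsto t1 (by filter_upwards [eventually_ge_atTop 1] with b hb1 using hb b hb1)
  have h3 : η * ‖s‖ ≤ ‖s - u‖ := by simpa using h2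
  nlinarith [norm_nonneg s]

end Pool.Agent.H58.PT
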