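import Pool.Agent.H20.PT.Pow

/-!
# Project PT2: a periodic point whose minimal period is a multiple of `q`
-/

set_option autoImplicit false

universe v

namespace Pool.Agent.H58.PT

open Function Pool.Agent.H20.PT

theorem k4 : S_K4.{v} := by
  intro N _ g q hq ⟨C, _, hd, hw⟩
  obtain ⟨y, hy, hj⟩ := hw q (fun j => if j = 0 then 1 else 0) hq
  have hp : IsPeriodicPt (g^[q]) q y := hy
  have hpg : IsPeriodicPt g (q * q) y := by
    have h : g^[q * q] y = y := by rw [iterate_mul]; exact hy
    exact h
  have hm : 0 < minimalPeriod g y := hpg.minimalPeriod_pos (Nat.mul_pos hq hq)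
  refine ⟨y, hm, ?_⟩
  have h1 : minimalPeriod (g^[q]) y ∣ minimalPeriod g y := by
    refine IsPeriodicPt.minimalPeriod_dvd ?_
    have h : (g^[q])^[minimalPeriod g y] y = y := by
      rw [← iterate_mul, mul_comm, iterate_mul]
      have h2 : IsFixedPt (g^[minimalPeriod g y]) y := isPeriodicPt_minimalPeriod g y
      exact h2.iterate q
    exact h
  have h2 : minimalPeriod (g^[q]) y = q := by
    have h3 : 0 < minimalPeriod (g^[q]) y := hp.minimalPeriod_pos hq
    by_contra hne
    have h4 : minimalPeriod (g^[q]) y < q :=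
      lt_of_le_of_ne (Nat.le_of_dvd hq hp.minimalPeriod_dvd) hne
    have h5 := hj (minimalPeriod (g^[q]) y) h4
    have h6 : (g^[q])^[minimalPeriod (g^[q]) y] y = y := isPeriodicPt_minimalPeriod _ _
    rw [h6] at h5
    simp only [h3.ne', if_false] at h5
    have h7 := hj 0 hq
    simp only [if_true] at h7
    exact Set.disjoint_left.1 (hd 0 1 (by decide)) h5 h7
  rw [h2] at h1
  exact h1

end Pool.Agent.H58.PT
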