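import Pool.Agent.H20.PT.Skew
import Pool.Agent.H22.PT.Nobx
import Pool.Agent.H3.PT.Nm

/-!
# Project PT3: vertical vectors of toral extensions have unbounded orbits (`S_VERT`)
-/

set_option autoImplicit false
set_option linter.unusedSectionVars false

open scoped Manifold ContDiff Topology
open Filter Set Metric

universe u v w

namespace Pool.Agent.H58.PT.VT

open Pool.Agent.H20.PT
open Pool.Agent.H718R2.G Pool.Agent.TH80.OMS Pool.Agent.Y504.CO Pool.Agent.R773.TE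
open Pool.Agent.H721R2 (IsTangentNorm)

section linear

variable {W : Type} [NormedAddCommGroup W] [NormedSpace ℝ W]

theorem pow_iter (A : W ≃L[ℝ] W) (j : ℕ) (v : W) : (A ^ j) v = A^[j] v := by
  induction j generalizing v with
  | zero => rfl
  | succ j ih =>
    rw [pow_succ, Function.iterate_succ_apply, ← ih]
    rfl

theorem symm_pow (A : W ≃L[ℝ] W) (j : ℕ) (v : W) : (A ^ j).symm v = A.symm^[j] v := by
  rw [ContinuousLinearEquiv.symm_apply_eq, pow_iter]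
  induction j generalizing v with
  | zero => rfl
  | succ j ih =>
    rw [Function.iterate_succ_apply, Function.iterate_succ_apply' A.symm, A.apply_symm_apply]
    exact ih v

theorem pow_comm (A : W ≃L[ℝ] W) (P : W →L[ℝ] W) (h : ∀ v, A (P v) = P (A v)) (j : ℕ) (v : W) :
    (A ^ j) (P v) = P ((A ^ j) v) := by
  rw [pow_iter, pow_iter]
  induction j generalizing v with
  | zero => rfl
  | succ j ih => rw [Function.iterate_succ_apply, Function.iterate_succ_apply, h, ih]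

/-- bounded approximate orbits of a hyperbolic linear map vanish -/
theorem seq_zero (B : W ≃L[ℝ] W) (P : W →L[ℝ] W) (hBP : ∀ v, B (P v) = P (B v)) {q ε : ℝ}
    (hq8 : q ≤ 1 / 8) (hε1 : ε ≤ 1) (hε8 : ‖P‖ * ε ≤ 1 / 8)
    (h1 : ∀ v, ‖B (P v)‖ ≤ q * ‖v‖) (h2 : ∀ v, ‖B.symm (v - P v)‖ ≤ q * ‖v‖) (w : ℤ → W)
    (hw : ∀ k, ‖w (k + 1) - B (w k)‖ ≤ ε * ‖w k‖) {R : ℝ} (hb : ∀ k, ‖w k‖ ≤ R) (k : ℤ) :
    w k = 0 := by
  have step : ∀ R : ℝ, (∀ k, ‖w k‖ ≤ R) → ∀ k, ‖w k‖ ≤ R / 2 := by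
    intro R hR k
    have hR0 : 0 ≤ R := (norm_nonneg _).trans (hR 0)
    have e1 : ‖P (w k)‖ ≤ 1 / 4 * R := by
      have h3 := hw (k - 1)
      rw [sub_add_cancel] at h3
      have h4 : P (w k) = B (P (w (k - 1))) + P (w k - B (w (k - 1))) := by
        rw [map_sub, hBP]; abel
      rw [h4]
      calc ‖B (P (w (k - 1))) + P (w k - B (w (k - 1)))‖
          ≤ ‖B (P (w (k - 1)))‖ + ‖P (w k - B (w (k - 1)))‖ := norm_add_le _ _
        _ ≤ q * ‖w (k - 1)‖ + ‖P‖ * (ε * ‖w (k - 1)‖) :=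
            add_le_add (h1 _) ((P.le_opNorm _).trans
              (mul_le_mul_of_nonneg_left h3 (norm_nonneg _)))
        _ = (q + ‖P‖ * ε) * ‖w (k - 1)‖ := by ring
        _ ≤ 1 / 4 * R := mul_le_mul (by linarith) (hR _) (norm_nonneg _) (by norm_num)
    have e2 : ‖w k - P (w k)‖ ≤ 1 / 4 * R := by
      have h3 := hw k
      have h4 : w k - P (w k) = B.symm (B (w k) - P (B (w k))) := by
        rw [← hBP, ← map_sub, B.symm_apply_apply]
      have h5 : ‖B (w k)‖ ≤ 2 * R := by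
        have h6 : B (w k) = w (k + 1) - (w (k + 1) - B (w k)) := by abel
        rw [h6]
        calc ‖w (k + 1) - (w (k + 1) - B (w k))‖ ≤ ‖w (k + 1)‖ + ‖w (k + 1) - B (w k)‖ :=
              norm_sub_le _ _
          _ ≤ R + 1 * R := add_le_add (hR _) (h3.trans (mul_le_mul hε1 (hR _) (norm_nonneg _)
              zero_le_one))
          _ = 2 * R := by ring
      rw [h4]
      calc ‖B.symm (B (w k) - P (B (w k)))‖ ≤ q * ‖B (w k)‖ := h2 _
        _ ≤ 1 / 8 * (2 * R) := mul_le_mul hq8 h5 (norm_nonneg _) (by norm_num)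
        _ = 1 / 4 * R := by ring
    have h3 : w k = P (w k) + (w k - P (w k)) := by abel
    rw [h3]
    exact (norm_add_le _ _).trans (by linarith)
  have hall : ∀ m : ℕ, ∀ k, ‖w k‖ ≤ R * (1 / 2) ^ m := by
    intro m
    induction m with
    | zero => simpa using hb
    | succ m ih =>
      intro k
      have := step _ ih k
      rw [pow_succ]
      linarith
  have hlim : Tendsto (fun m : ℕ => R * (1 / 2 : ℝ) ^ m) atTop (𝓝 (R * 0)) :=
    (tendsto_pow_atTop_nhds_zero_of_lt_one (by norm_num) (by norm_num)).const_mul R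
  rw [mul_zero] at hlim
  have := ge_of_tendsto' hlim fun m => hall m k
  exact norm_le_zero_iff.1 this

end linear

section deriv

variable {E E' E'' : Type*} [NormedAddCommGroup E] [NormedSpace ℝ E]
  [NormedAddCommGroup E'] [NormedSpace ℝ E'] [NormedAddCommGroup E''] [NormedSpace ℝ E'']
  {M M' M'' : Type*} [TopologicalSpace M] [ChartedSpace E M]
  [TopologicalSpace M'] [ChartedSpace E' M'] [TopologicalSpace M''] [ChartedSpace E'' M'']

/-- the derivative as a map of the model spaces -/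
noncomputable def dd (E E' : Type*) [NormedAddCommGroup E] [NormedSpace ℝ E]
    [NormedAddCommGroup E'] [NormedSpace ℝ E'] {M M' : Type*} [TopologicalSpace M]
    [ChartedSpace E M] [TopologicalSpace M'] [ChartedSpace E' M'] (f : M → M') (x : M) :
    E →L[ℝ] E' := mfderiv 𝓘(ℝ, E) 𝓘(ℝ, E') f x

theorem dd_comp (g : M' → M'') (f : M → M') (x : M)
    (hg : MDifferentiableAt 𝓘(ℝ, E') 𝓘(ℝ, E'') g (f x))
    (hf : MDifferentiableAt 𝓘(ℝ, E) 𝓘(ℝ, E') f x) (v : E) :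
    dd E E'' (g ∘ f) x v = dd E' E'' g (f x) (dd E E' f x v) := by
  have h := mfderiv_comp x hg hf
  show mfderiv 𝓘(ℝ, E) 𝓘(ℝ, E'') (g ∘ f) x v = _
  rw [h]
  rfl

theorem dd_const (y : M') (x : M) (v : E) : dd E E' (fun _ : M => y) x v = 0 := by
  show mfderiv 𝓘(ℝ, E) 𝓘(ℝ, E') (fun _ : M => y) x v = _
  rw [mfderiv_const]
  rfl

end deriv

section chart

variable {W : Type} [NormedAddCommGroup W] [NormedSpace ℝ W] [FiniteDimensional ℝ W]
  {e : ℕ} {K : Type v} [TopologicalSpace K] [ChartedSpace (V e) K] [IsManifold (𝓡 e) ∞ K]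

/-- lifts through a local diffeomorphism are differentiable -/
theorem diff_lift {p : W → K} (hp : ContMDiff 𝓘(ℝ, W) (𝓡 e) ∞ p)
    (hder : ∀ z, Function.Bijective (mfderiv 𝓘(ℝ, W) (𝓡 e) p z)) {G : W → W} {z₀ : W}
    (hG : ContinuousAt G z₀) (hpG : MDifferentiableAt 𝓘(ℝ, W) (𝓡 e) (p ∘ G) z₀) :
    DifferentiableAt ℝ G z₀ := by
  have : CompleteSpace W := FiniteDimensional.complete ℝ W
  set χ := extChartAt (𝓡 e) (p (G z₀)) with hχ
  set q : W → V e := χ ∘ p with hq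
  have hqc : ContDiffAt ℝ 1 q (G z₀) := by
    have h1 : ContMDiffAt 𝓘(ℝ, W) (𝓡 e) 1 p (G z₀) := (hp.contMDiffAt).of_le (by simp)
    have h2 := (contMDiffAt_iff.1 h1).2
    simp only [mfld_simps, contDiffWithinAt_univ] at h2
    exact h2
  have hfd : (fderiv ℝ q (G z₀) : W →L[ℝ] V e) = mfderiv 𝓘(ℝ, W) (𝓡 e) p (G z₀) := by
    have h1 : MDifferentiableAt 𝓘(ℝ, W) (𝓡 e) p (G z₀) := hp.mdifferentiable (by simp) _
    rw [mfderiv, if_pos h1]
    simp only [writtenInExtChartAt, mfld_simps, fderivWithin_univ]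
    rfl
  have hbij : Function.Bijective (fderiv ℝ q (G z₀)) := by
    rw [hfd]
    exact hder _
  let f' : W ≃L[ℝ] V e := ContinuousLinearEquiv.ofBijective (fderiv ℝ q (G z₀))
    (LinearMap.ker_eq_bot.2 hbij.1) (LinearMap.range_eq_top.2 hbij.2)
  have hs : HasStrictFDerivAt q (f' : W →L[ℝ] V e) (G z₀) := by
    have h1 := hqc.hasStrictFDerivAt (by simp)
    exact h1
  have hL := hs.to_localInverse
  have hev := hs.eventually_left_inverse
  have hqG : DifferentiableAt ℝ (q ∘ G) z₀ := by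
    have h2 := (mdifferentiableAt_iff _ _).1 hpG |>.2
    simp only [mfld_simps, differentiableWithinAt_univ] at h2
    exact h2
  have h3 : G =ᶠ[𝓝 z₀] (hs.localInverse q f' (G z₀)) ∘ (q ∘ G) := by
    filter_upwards [hG.eventually hev] with z hz
    exact hz.symm
  refine DifferentiableAt.congr_of_eventuallyEq ?_ h3
  exact DifferentiableAt.comp z₀ hL.hasFDerivAt.differentiableAt hqG

end chart

section cover

/-- the norm of a model vector as a tangent vector -/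
noncomputable def tn {E : Type*} [NormedAddCommGroup E] [NormedSpace ℝ E] {M : Type*}
    [TopologicalSpace M] [ChartedSpace E M] (N : TangentBundle 𝓘(ℝ, E) M → ℝ) (x : M) (v : E) : ℝ :=
  N ⟨x, (v : TangentSpace 𝓘(ℝ, E) x)⟩

variable {W : Type} [NormedAddCommGroup W] [NormedSpace ℝ W] [FiniteDimensional ℝ W]
  {e : ℕ} {K : Type v} [TopologicalSpace K] [ChartedSpace (V e) K] [IsManifold (𝓡 e) ∞ K]
  [IsManifold 𝓘(ℝ, V e) 1 K]

theorem dd_per {Λ : AddSubgroup W} {p : W → K} (hp : IsTorCover Λ e p) {z z' : W}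
    (h : p z = p z') (v : W) : dd W (V e) p z v = dd W (V e) p z' v := by
  have hl : z - z' ∈ Λ := (hp.eq_iff z z').1 h
  have h1 : (p ∘ fun x => x + (z - z')) = p := by
    funext x
    show p (x + (z - z')) = p x
    rw [hp.eq_iff, add_sub_cancel_left]
    exact hl
  have hd : MDifferentiableAt 𝓘(ℝ, W) 𝓘(ℝ, W) (fun x : W => x + (z - z')) z' :=
    (differentiableAt_id.add_const _).mdifferentiableAt
  have h2 := dd_comp p (fun x => x + (z - z')) z' (hp.smooth.mdifferentiable (by simp) _) hd v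
  have h3 : dd W W (fun x => x + (z - z')) z' v = v := by
    show mfderiv 𝓘(ℝ, W) 𝓘(ℝ, W) (fun x : W => x + (z - z')) z' v = v
    rw [mfderiv_eq_fderiv]
    have : fderiv ℝ (fun x : W => x + (z - z')) z' = ContinuousLinearMap.id ℝ W := by
      rw [fderiv_add_const]
      exact fderiv_fun_id
    rw [this]
    rfl
  rw [h1, h3] at h2
  have h4 : z' + (z - z') = z := by abel
  rw [h2]
  simp only [h4]

theorem tn_smul {E : Type*} [NormedAddCommGroup E] [NormedSpace ℝ E] {M : Type*}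
    [TopologicalSpace M] [ChartedSpace E M] [IsManifold 𝓘(ℝ, E) 1 M]
    {N : TangentBundle 𝓘(ℝ, E) M → ℝ} (hN : IsTangentNorm N) (x : M) (c : ℝ) (v : E) :
    tn N x (c • v) = |c| * tn N x v := hN.smul x c v

/-- the norms on the torus and on its covering are comparable -/
theorem low {Λ : AddSubgroup W} (hl : ∃ C : ℝ, ∀ z : W, ∃ u ∈ Λ, ‖z - u‖ ≤ C) {p : W → K}
    (hp : IsTorCover Λ e p) {NmK : TangentBundle 𝓘(ℝ, V e) K → ℝ} (hN : IsTangentNorm NmK) :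
    ∃ c : ℝ, 0 < c ∧ ∀ z w : W, c * ‖w‖ ≤ tn NmK (p z) (dd W (V e) p z w) := by
  obtain ⟨C, hC⟩ := hl
  have hp1 : ContMDiff 𝓘(ℝ, W) 𝓘(ℝ, V e) 1 p := hp.smooth.of_le (by simp)
  let g : W × W → ℝ := fun x => tn NmK (p x.1) (dd W (V e) p x.1 x.2)
  have hg : Continuous g := by
    have h1 : Continuous (tangentMap 𝓘(ℝ, W) 𝓘(ℝ, V e) p) := hp1.continuous_tangentMap le_rfl
    have h2 := (tangentBundleModelSpaceHomeomorph 𝓘(ℝ, W)).symm.continuous
    exact hN.continuous.comp (h1.comp h2)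
  have hS : IsCompact (closedBall (0:W) C ×ˢ sphere (0:W) 1) :=
    (isCompact_closedBall _ _).prod (isCompact_sphere _ _)
  obtain ⟨c, hc, hcg⟩ := hS.exists_forall_le' (f := g) (a := 0) hg.continuousOn (by
    rintro ⟨z, w⟩ ⟨-, hw⟩
    refine hN.pos _ _ fun h0 => ?_
    have hw0 : w ≠ 0 := by
      rintro rfl
      simp at hw
    have h1 : dd W (V e) p z w = 0 := h0
    refine hw0 ((hp.der z).1 ?_)
    exact h1.trans (map_zero (dd W (V e) p z)).symm)
  refine ⟨c, hc, fun z w => ?_⟩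
  by_cases hw : w = 0
  · rw [hw, norm_zero, mul_zero, map_zero]
    have := tn_smul hN (p z) 0 (0 : V e)
    rw [zero_smul, abs_zero, zero_mul] at this
    exact this.ge
  obtain ⟨u, hu, hzu⟩ := hC z
  have hpz : p z = p (z - u) := by
    rw [hp.eq_iff, sub_sub_cancel]
    exact hu
  have hw0 : 0 < ‖w‖ := norm_pos_iff.2 hw
  have h1 := hcg (z - u, ‖w‖⁻¹ • w) ⟨by simpa using hzu, by
    simp [norm_smul, hw]⟩
  have h2 : dd W (V e) p z w = ‖w‖ • dd W (V e) p (z - u) (‖w‖⁻¹ • w) := by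
    rw [← map_smul, smul_smul, mul_inv_cancel₀ hw0.ne', one_smul]
    exact dd_per hp hpz w
  rw [h2, hpz, tn_smul hN, abs_of_pos hw0, mul_comm]
  exact mul_le_mul_of_nonneg_left h1 hw0.le

end cover

section homeo

variable {T : Type w} [TopologicalSpace T]

theorem coe_pow' (F : T ≃ₜ T) (m : ℕ) : ⇑(F ^ m) = F^[m] := by
  induction m with
  | zero => rfl
  | succ m ih =>
    rw [pow_succ, Function.iterate_succ]
    show ⇑(F ^ m) ∘ ⇑F = _
    rw [ih]

theorem coe_zpow_neg (F : T ≃ₜ T) (m : ℕ) : ⇑(F ^ (-(m : ℤ))) = F.symm^[m] := by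
  rw [zpow_neg, zpow_natCast, ← inv_pow]
  exact coe_pow' F.symm m

theorem zpow_succ' (F : T ≃ₜ T) (k : ℤ) (t : T) : (F ^ (k + 1)) t = F ((F ^ k) t) := by
  rw [add_comm, zpow_add, zpow_one]
  rfl

theorem zpow_smooth {n : ℕ} [ChartedSpace (V n) T] [IsManifold 𝓘(ℝ, V n) 1 T] {F : T ≃ₜ T}
    (hF : ContMDiff 𝓘(ℝ, V n) 𝓘(ℝ, V n) 1 F) (hF' : ContMDiff 𝓘(ℝ, V n) 𝓘(ℝ, V n) 1 F.symm)
    (k : ℤ) : ContMDiff 𝓘(ℝ, V n) 𝓘(ℝ, V n) 1 ⇑(F ^ k) := by
  obtain ⟨m, rfl | rfl⟩ := k.eq_nat_or_neg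
  · rw [zpow_natCast, coe_pow']
    exact Pool.Agent.H721R2.iter_smooth F hF m
  · rw [coe_zpow_neg]
    exact Pool.Agent.H721R2.iter_smooth F.symm hF' m

end homeo

section main

variable {W : Type} [NormedAddCommGroup W] [NormedSpace ℝ W] [FiniteDimensional ℝ W]
  {Λ : AddSubgroup W} {d e n : ℕ} {M : Type u} [TopologicalSpace M] [ChartedSpace (V d) M]
  [IsManifold (𝓡 d) ∞ M] {K : Type v} [TopologicalSpace K] [ChartedSpace (V e) K]
  [IsManifold (𝓡 e) ∞ K] {T : Type w} [TopologicalSpace T] [ChartedSpace (V n) T]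
  [IsManifold (𝓡 n) ∞ T]

/-- the first projection -/
noncomputable def q₁ (Θ : ProdDiff n d e T M K) (t : T) : M := (Θ.symm t).1

/-- the second projection -/
noncomputable def q₂ (Θ : ProdDiff n d e T M K) (t : T) : K := (Θ.symm t).2

theorem q₁_smooth (Θ : ProdDiff n d e T M K) : ContMDiff (𝓡 n) (𝓡 d) ∞ (q₁ Θ) :=
  contMDiff_fst.comp Θ.symm.contMDiff

theorem q₂_smooth (Θ : ProdDiff n d e T M K) : ContMDiff (𝓡 n) (𝓡 e) ∞ (q₂ Θ) :=
  contMDiff_snd.comp Θ.symm.contMDiff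

theorem q₁_dd (Θ : ProdDiff n d e T M K) (t : T) (w : V n) : dd (V n) (V d) (q₁ Θ) t w =
    (mfderiv (𝓡 n) ((𝓡 d).prod (𝓡 e)) Θ.symm t w).1 := by
  have hd : MDifferentiableAt (𝓡 n) ((𝓡 d).prod (𝓡 e)) Θ.symm t :=
    Θ.symm.contMDiff.mdifferentiable (by simp) t
  have : mfderiv (𝓡 n) (𝓡 d) (q₁ Θ) t = _ := mfderiv_comp t mdifferentiableAt_fst hd
  show mfderiv (𝓡 n) (𝓡 d) (q₁ Θ) t w = _
  rw [this, mfderiv_fst]
  rfl

theorem q₂_dd (Θ : ProdDiff n d e T M K) (t : T) (w : V n) : dd (V n) (V e) (q₂ Θ) t w =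
    (mfderiv (𝓡 n) ((𝓡 d).prod (𝓡 e)) Θ.symm t w).2 := by
  have hd : MDifferentiableAt (𝓡 n) ((𝓡 d).prod (𝓡 e)) Θ.symm t :=
    Θ.symm.contMDiff.mdifferentiable (by simp) t
  have : mfderiv (𝓡 n) (𝓡 e) (q₂ Θ) t = _ := mfderiv_comp t mdifferentiableAt_snd hd
  show mfderiv (𝓡 n) (𝓡 e) (q₂ Θ) t w = _
  rw [this, mfderiv_snd]
  rfl

theorem q_inj (Θ : ProdDiff n d e T M K) (t : T) (w : V n) (h1 : dd (V n) (V d) (q₁ Θ) t w = 0)
    (h2 : dd (V n) (V e) (q₂ Θ) t w = 0) : w = 0 := by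
  have e3 : Θ.symm.mfderivToContinuousLinearEquiv (by simp) t w = 0 := by
    refine Prod.ext ?_ ?_
    · exact (q₁_dd Θ t w).symm.trans h1
    · exact (q₂_dd Θ t w).symm.trans h2
  exact (ContinuousLinearEquiv.map_eq_zero_iff _).1 e3

theorem q_surj (Θ : ProdDiff n d e T M K) (t : T) (u₂ : V e) :
    ∃ w : V n, dd (V n) (V d) (q₁ Θ) t w = 0 ∧ dd (V n) (V e) (q₂ Θ) t w = u₂ := by
  refine ⟨(Θ.symm.mfderivToContinuousLinearEquiv (by simp) t).symm (0, u₂), ?_, ?_⟩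
  · refine (q₁_dd Θ t _).trans ?_
    exact congrArg Prod.fst
      ((Θ.symm.mfderivToContinuousLinearEquiv (by simp) t).apply_symm_apply (0, u₂))
  · refine (q₂_dd Θ t _).trans ?_
    exact congrArg Prod.snd
      ((Θ.symm.mfderivToContinuousLinearEquiv (by simp) t).apply_symm_apply (0, u₂))

/-- the coverings of the fibres -/
noncomputable def io (Θ : ProdDiff n d e T M K) (p : W → K) (b : M) (z : W) : T := Θ (b, p z)

theorem io_smooth (Θ : ProdDiff n d e T M K) {p : W → K} (hp : IsTorCover Λ e p) (b : M) :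
    ContMDiff 𝓘(ℝ, W) (𝓡 n) ∞ (io Θ p b) :=
  Θ.contMDiff.comp (contMDiff_const.prodMk hp.smooth)

theorem q₁_io (Θ : ProdDiff n d e T M K) (p : W → K) (b : M) : q₁ Θ ∘ io Θ p b = fun _ => b := by
  funext z
  show (Θ.symm (Θ (b, p z))).1 = b
  rw [Θ.symm_apply_apply]

theorem q₂_io (Θ : ProdDiff n d e T M K) (p : W → K) (b : M) : q₂ Θ ∘ io Θ p b = p := by
  funext z
  show (Θ.symm (Θ (b, p z))).2 = p z
  rw [Θ.symm_apply_apply]

theorem io_eq (Θ : ProdDiff n d e T M K) {p : W → K} {t : T} {z : W} (h : p z = q₂ Θ t) :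
    io Θ p (q₁ Θ t) z = t := by
  unfold io
  rw [h]
  exact Θ.apply_symm_apply t

theorem tan (Θ : ProdDiff n d e T M K) {p : W → K} (hp : IsTorCover Λ e p) {t : T} {v : V n}
    {z w : W} (hv : dd (V n) (V d) (q₁ Θ) t v = 0) (hz : p z = q₂ Θ t)
    (hw : dd W (V e) p z w = dd (V n) (V e) (q₂ Θ) t v) :
    dd W (V n) (io Θ p (q₁ Θ t)) z w = v := by
  have ht := io_eq Θ hz
  have hio := (io_smooth Θ hp (q₁ Θ t)).mdifferentiable (by simp) z
  have h1 := dd_comp (q₁ Θ) (io Θ p (q₁ Θ t)) z ((q₁_smooth Θ).mdifferentiable (by simp) _) hio w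
  have h2 := dd_comp (q₂ Θ) (io Θ p (q₁ Θ t)) z ((q₂_smooth Θ).mdifferentiable (by simp) _) hio w
  rw [q₁_io, dd_const, ht] at h1
  rw [q₂_io, ht, hw] at h2
  refine sub_eq_zero.1 (q_inj Θ t _ ?_ ?_)
  · rw [map_sub, ← h1, hv, sub_zero]
  · rw [map_sub, ← h2, sub_self]

variable {A : W ≃L[ℝ] W} {j : ℕ} {ε : ℝ}

theorem vert_step (Θ : ProdDiff n d e T M K) {p : W → K} (hp : IsTorCover Λ e p) {F : T ≃ₜ T}
    (hF : ContMDiff 𝓘(ℝ, V n) 𝓘(ℝ, V n) 1 F) {f : M → M} {φ : M → W → W}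
    (hS : IsTorSkew A j ε Θ p F f φ) {t : T} {v : V n} (hv : dd (V n) (V d) (q₁ Θ) t v = 0) :
    dd (V n) (V d) (q₁ Θ) (F t) (dd (V n) (V n) F t v) = 0 := by
  obtain ⟨z, hz⟩ := hp.surj (q₂ Θ t)
  obtain ⟨w, hw⟩ := (hp.der z).2 (dd (V n) (V e) (q₂ Θ) t v)
  have h1 := tan Θ hp hv hz hw
  have ht := io_eq Θ hz
  have hio := (io_smooth Θ hp (q₁ Θ t)).mdifferentiable (by simp) z
  have hFd : MDifferentiableAt 𝓘(ℝ, V n) 𝓘(ℝ, V n) F (io Θ p (q₁ Θ t) z) :=
    hF.mdifferentiable (by simp) _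
  have h2 := dd_comp F (io Θ p (q₁ Θ t)) z hFd hio w
  have h3 := dd_comp (q₁ Θ) (F ∘ io Θ p (q₁ Θ t)) z ((q₁_smooth Θ).mdifferentiable (by simp) _)
    (hFd.comp z hio) w
  have h4 : q₁ Θ ∘ (F ∘ io Θ p (q₁ Θ t)) = fun _ => f (q₁ Θ t) := by
    funext x
    show (Θ.symm (F (Θ (q₁ Θ t, p x)))).1 = _
    rw [hS.1, Θ.symm_apply_apply]
  rw [h4, dd_const, h2, h1] at h3
  show dd (V n) (V d) (q₁ Θ) (F t) (dd (V n) (V n) F t v) = 0
  have h5 : (F ∘ io Θ p (q₁ Θ t)) z = F t := congrArg F ht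
  rw [h5, ht] at h3
  exact h3.symm

theorem dd_injF {F : T ≃ₜ T} (hF : ContMDiff 𝓘(ℝ, V n) 𝓘(ℝ, V n) 1 F)
    (hF' : ContMDiff 𝓘(ℝ, V n) 𝓘(ℝ, V n) 1 F.symm) (t : T) :
    Function.Injective (dd (V n) (V n) F t) := by
  have hcomp : ∀ v, dd (V n) (V n) F.symm (F t) (dd (V n) (V n) F t v) = v := by
    intro v
    rw [← dd_comp F.symm F t (hF'.mdifferentiable (by simp) _) (hF.mdifferentiable (by simp) _)]
    have : ⇑F.symm ∘ ⇑F = id := funext F.symm_apply_apply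
    rw [this]
    show mfderiv 𝓘(ℝ, V n) 𝓘(ℝ, V n) id t v = v
    rw [mfderiv_id]
    rfl
  intro a b hab
  rw [← hcomp a, hab, hcomp b]

theorem vert_back (Θ : ProdDiff n d e T M K) {p : W → K} (hp : IsTorCover Λ e p) {F : T ≃ₜ T}
    (hF : ContMDiff 𝓘(ℝ, V n) 𝓘(ℝ, V n) 1 F) (hF' : ContMDiff 𝓘(ℝ, V n) 𝓘(ℝ, V n) 1 F.symm)
    {f : M → M} {φ : M → W → W} (hS : IsTorSkew A j ε Θ p F f φ) {t : T} {v : V n}
    (hv : dd (V n) (V d) (q₁ Θ) (F t) (dd (V n) (V n) F t v) = 0) :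
    dd (V n) (V d) (q₁ Θ) t v = 0 := by
  let S : T → Submodule ℝ (V n) := fun t => LinearMap.ker (dd (V n) (V d) (q₁ Θ) t : V n →ₗ[ℝ] V d)
  have hrank : ∀ t, Module.finrank ℝ (S t) = Module.finrank ℝ (V e) := by
    intro t
    refine LinearEquiv.finrank_eq (LinearEquiv.ofBijective
      ((dd (V n) (V e) (q₂ Θ) t : V n →ₗ[ℝ] V e).comp (S t).subtype) ⟨?_, ?_⟩)
    · rw [injective_iff_map_eq_zero]
      rintro ⟨x, hx⟩ h0
      exact Subtype.ext (q_inj Θ t x (LinearMap.mem_ker.1 hx) h0)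
    · intro u
      obtain ⟨x, hx1, hx2⟩ := q_surj Θ t u
      exact ⟨⟨x, LinearMap.mem_ker.2 hx1⟩, hx2⟩
  have hinj := dd_injF hF hF' t
  have hle : (S t).map (dd (V n) (V n) F t : V n →ₗ[ℝ] V n) ≤ S (F t) := by
    rintro _ ⟨x, hx, rfl⟩
    exact LinearMap.mem_ker.2 (vert_step Θ hp hF hS (LinearMap.mem_ker.1 hx))
  have heq : (S t).map (dd (V n) (V n) F t : V n →ₗ[ℝ] V n) = S (F t) := by
    refine Submodule.eq_of_le_of_finrank_eq hle ?_
    rw [hrank (F t), ← hrank t]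
    exact (Submodule.equivMapOfInjective _ hinj (S t)).finrank_eq.symm
  have hmem : dd (V n) (V n) F t v ∈ S (F t) := LinearMap.mem_ker.2 hv
  rw [← heq] at hmem
  obtain ⟨x, hx, hxv⟩ := hmem
  have : x = v := hinj hxv
  rw [← this]
  exact LinearMap.mem_ker.1 hx

/-- one step of the covering sequence -/
theorem cov_step (Θ : ProdDiff n d e T M K) {p : W → K} (hp : IsTorCover Λ e p) {F : T ≃ₜ T}
    (hF : ContMDiff 𝓘(ℝ, V n) 𝓘(ℝ, V n) 1 F) {f : M → M} {φ : M → W → W} (hε : 0 ≤ ε)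
    (hS : IsTorSkew A j ε Θ p F f φ) {t : T} {v : V n} (hv : dd (V n) (V d) (q₁ Θ) t v = 0)
    {z w z' w' : W} (hz : p z = q₂ Θ t) (hw : dd W (V e) p z w = dd (V n) (V e) (q₂ Θ) t v)
    (hz' : p z' = q₂ Θ (F t))
    (hw' : dd W (V e) p z' w' = dd (V n) (V e) (q₂ Θ) (F t) (dd (V n) (V n) F t v)) :
    ‖w' - (A ^ j) w‖ ≤ ε * ‖w‖ := by
  have h1 := tan Θ hp hv hz hw
  have ht := io_eq Θ hz
  set b := q₁ Θ t with hb
  have hio := (io_smooth Θ hp b).mdifferentiable (by simp) z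
  have hFd : MDifferentiableAt 𝓘(ℝ, V n) 𝓘(ℝ, V n) F (io Θ p b z) := hF.mdifferentiable (by simp) _
  have h2 := dd_comp F (io Θ p b) z hFd hio w
  have hq₂ : MDifferentiableAt 𝓘(ℝ, V n) 𝓘(ℝ, V e) (q₂ Θ) ((F ∘ io Θ p b) z) :=
    (q₂_smooth Θ).mdifferentiable (by simp) _
  have h3 := dd_comp (q₂ Θ) (F ∘ io Θ p b) z hq₂ (hFd.comp z hio) w
  have h5 : (F ∘ io Θ p b) z = F t := congrArg F ht
  rw [h2, h1, h5, ht] at h3
  set G : W → W := fun x => (A ^ j) x + φ b x with hG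
  have h4 : q₂ Θ ∘ (F ∘ io Θ p b) = p ∘ G := by
    funext x
    show (Θ.symm (F (Θ (b, p x)))).2 = _
    rw [hS.1, Θ.symm_apply_apply]
    rfl
  have hlip : LipschitzWith ⟨ε, hε⟩ (φ b) := LipschitzWith.of_dist_le_mul fun x y => by
    rw [dist_eq_norm, dist_eq_norm]
    exact hS.2 b x y
  have hGc : ContinuousAt G z :=
    (((A ^ j).continuous).add hlip.continuous).continuousAt
  have hpG : MDifferentiableAt 𝓘(ℝ, W) (𝓡 e) (p ∘ G) z := by
    rw [← h4]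
    exact hq₂.comp z (hFd.comp z hio)
  have hGd : DifferentiableAt ℝ G z := diff_lift hp.smooth hp.der hGc hpG
  have h6 := dd_comp p G z (hp.smooth.mdifferentiable (by simp) _) hGd.mdifferentiableAt w
  rw [← h4, h3, ← hw'] at h6
  have h7 : p (G z) = p z' := by
    rw [hz', ← h5]
    exact (congrFun h4 z).symm
  rw [dd_per hp h7] at h6
  have h8 : w' = dd W W G z w := (hp.der z').1 h6
  have h9 : dd W W G z w = fderiv ℝ G z w := by
    show mfderiv 𝓘(ℝ, W) 𝓘(ℝ, W) G z w = _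
    rw [mfderiv_eq_fderiv]
    rfl
  have hφd : DifferentiableAt ℝ (φ b) z := by
    have h10 : φ b = fun x => G x - (A ^ j) x := by
      funext x
      rw [hG]
      simp only [add_sub_cancel_left]
    rw [h10]
    exact hGd.sub (A ^ j).differentiableAt
  have h10 : fderiv ℝ G z w = (A ^ j) w + fderiv ℝ (φ b) z w := by
    have h11 : fderiv ℝ G z = fderiv ℝ (fun x => (A ^ j) x) z + fderiv ℝ (φ b) z :=
      fderiv_fun_add (A ^ j).differentiableAt hφd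
    rw [h11]
    have h12 : fderiv ℝ (fun x => (A ^ j) x) z = ((A ^ j : W ≃L[ℝ] W) : W →L[ℝ] W) :=
      (A ^ j).fderiv
    rw [h12]
    rfl
  rw [h8, h9, h10, add_sub_cancel_left]
  exact (ContinuousLinearMap.le_opNorm _ _).trans
    (mul_le_mul_of_nonneg_right (norm_fderiv_le_of_lipschitz ℝ hlip) (norm_nonneg _))

end main

theorem vert : S_VERT.{u, v, w} := by
  intro W _ _ _ _ Λ _ _ A hA
  obtain ⟨P, C, μ, hC0, hμ0, hμ1, hPP, hAP, hC⟩ := hA.hyp
  have hq : ∀ᶠ j : ℕ in atTop, C * μ ^ j ≤ 1 / 8 := by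
    have h1 : Tendsto (fun j : ℕ => C * μ ^ j) atTop (𝓝 (C * 0)) :=
      (tendsto_pow_atTop_nhds_zero_of_lt_one hμ0.le hμ1).const_mul C
    rw [mul_zero] at h1
    exact h1.eventually (ge_mem_nhds (by norm_num))
  obtain ⟨J, hJ⟩ := eventually_atTop.1 hq
  have hP1 : 0 < ‖P‖ + 1 := by positivity
  refine ⟨min 1 (1 / (8 * (‖P‖ + 1))), lt_min one_pos (by positivity), J, fun j hj => ?_⟩
  set ε : ℝ := min 1 (1 / (8 * (‖P‖ + 1))) with hε
  have hε0 : 0 ≤ ε := le_min zero_le_one (by positivity)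
  have hε8 : ‖P‖ * ε ≤ 1 / 8 := by
    calc ‖P‖ * ε ≤ (‖P‖ + 1) * (1 / (8 * (‖P‖ + 1))) :=
          mul_le_mul (by linarith) (min_le_right _ _) hε0 hP1.le
      _ = 1 / 8 := by field_simp
  intro d e n M _ _ _ _ _ K _ _ _ _ _ T _ _ _ _ _ _ Θ p F f φ hF hF' hp hS Nm hNm
  intro t v hv B hB1 hB2
  have hK1 : IsManifold 𝓘(ℝ, V e) 1 K := IsManifold.of_le (n := ∞) (by simp)
  obtain ⟨NmK, hNmK⟩ := Pool.Agent.H3.PT.NM.main e K
  obtain ⟨c, hc, hlow⟩ := low hA.lattice hp hNmK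
  have hq₂s : ContMDiff 𝓘(ℝ, V n) 𝓘(ℝ, V e) 1 (q₂ Θ) := (q₂_smooth Θ).of_le (by simp)
  obtain ⟨c', hc', hup⟩ := Pool.Agent.H22.PTN.bnd hNm hNmK hq₂s
  -- the orbit
  let tt : ℤ → T := fun k => (F ^ k) t
  let vv : ℤ → V n := fun k => dd (V n) (V n) ⇑(F ^ k) t v
  have htt : ∀ k, tt (k + 1) = F (tt k) := fun k => zpow_succ' F k t
  have hvv : ∀ k, vv (k + 1) = dd (V n) (V n) F (tt k) (vv k) := by
    intro k
    have h1 : (⇑(F ^ (k + 1)) : T → T) = F ∘ ⇑(F ^ k) := funext (zpow_succ' F k)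
    show dd (V n) (V n) ⇑(F ^ (k + 1)) t v = _
    rw [h1]
    exact dd_comp F ⇑(F ^ k) t (hF.mdifferentiable (by simp) _)
      ((zpow_smooth hF hF' k).mdifferentiable (by simp) _) v
  have hv0 : vv 0 = v := by
    show dd (V n) (V n) ⇑(F ^ (0:ℤ)) t v = v
    show mfderiv 𝓘(ℝ, V n) 𝓘(ℝ, V n) id t v = v
    rw [mfderiv_id]
    rfl
  have ht0 : tt 0 = t := rfl
  have hvert : ∀ k, dd (V n) (V d) (q₁ Θ) (tt k) (vv k) = 0 := by
    intro k
    induction k using Int.induction_on with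
    | zero =>
      rw [hv0, ht0]
      exact hv
    | succ k ih =>
      rw [htt, hvv]
      exact vert_step Θ hp hF hS ih
    | pred k ih =>
      have h1 := htt (-(k : ℤ) - 1)
      have h2 := hvv (-(k : ℤ) - 1)
      rw [sub_add_cancel] at h1 h2
      rw [h1, h2] at ih
      exact vert_back Θ hp hF hF' hS ih
  choose zz hzz using fun k => hp.surj (q₂ Θ (tt k))
  have hexw : ∀ k, ∃ x : W, dd W (V e) p (zz k) x = dd (V n) (V e) (q₂ Θ) (tt k) (vv k) :=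
    fun k => (hp.der (zz k)).2 (dd (V n) (V e) (q₂ Θ) (tt k) (vv k))
  choose ww hww' using hexw
  have hstep : ∀ k, ‖ww (k + 1) - (A ^ j) (ww k)‖ ≤ ε * ‖ww k‖ := by
    intro k
    refine cov_step Θ hp hF hε0 hS (hvert k) (hzz k) (hww' k) ?_ ?_ (z' := zz (k + 1))
    · rw [← htt]
      exact hzz (k + 1)
    · rw [hww', hvv, htt]
  have hNB : ∀ k, tn Nm (tt k) (vv k) ≤ B := by
    intro k
    obtain ⟨m, rfl | rfl⟩ := k.eq_nat_or_neg
    · have h1 : (⇑(F ^ (m : ℤ)) : T → T) = F^[m] := by rw [zpow_natCast, coe_pow']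
      have h2 := hB1 m
      rw [← h1] at h2
      exact h2
    · have h1 : (⇑(F ^ (-(m : ℤ))) : T → T) = F.symm^[m] := coe_zpow_neg F m
      have h2 := hB2 m
      rw [← h1] at h2
      exact h2
  have hbd : ∀ k, ‖ww k‖ ≤ c⁻¹ * (c' * B) := by
    intro k
    have h1 := hlow (zz k) (ww k)
    rw [hww' k, hzz k] at h1
    have h2 : tn NmK (q₂ Θ (tt k)) (dd (V n) (V e) (q₂ Θ) (tt k) (vv k)) ≤
        c' * tn Nm (tt k) (vv k) := hup (tt k) (vv k)
    have h3 : c * ‖ww k‖ ≤ c' * B := h1.trans (h2.trans (mul_le_mul_of_nonneg_left (hNB k) hc'))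
    rw [inv_mul_eq_div, le_div_iff₀ hc, mul_comm]
    exact h3
  have h0 := seq_zero (A ^ j) P (pow_comm A P hAP j) (hJ j hj) (min_le_left _ _) hε8
    (fun v => by rw [pow_iter]; exact (hC j v).1) (fun v => by rw [symm_pow]; exact (hC j v).2)
    ww hstep hbd 0
  have h1 := hww' 0
  rw [h0, map_zero, hv0, ht0] at h1
  exact q_inj Θ t v hv h1.symm

end Pool.Agent.H58.PT.VT
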